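import Pool.Agent.helper58.CRO.SpecH
import Pool.Agent.helper72.CRO.KZP

/-!
# Row cro:HKQ: the inequality for the Jacobi fields orthogonal to the orbit
-/

set_option autoImplicit false

open scoped Manifold ContDiff Topology ENNReal
open MeasureTheory Set

noncomputable section

namespace Pool.Agent.CRO

/-- the flow maps the vector field to itself -/
private theorem HKQ_vf {n : ℕ} {H : PS n → ℝ} {Φ : ℝ → PS n → PS n} (hΦ : IsHFlow H Φ) (T : ℝ) (x : PS n) :
    fderiv ℝ (Φ T) x (hvf H x) = hvf H (Φ T x) := by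
  have h1 : HasDerivAt (fun s => Φ s x) (hvf H (Φ 0 x)) 0 := hΦ.ode x 0
  rw [hΦ.zero] at h1
  have h2 : HasFDerivAt (Φ T) (fderiv ℝ (Φ T) x) (Φ 0 x) := by
    rw [hΦ.zero]
    exact (hΦ.diff T x).hasFDerivAt
  have h3 : HasDerivAt (fun s => Φ T (Φ s x)) (fderiv ℝ (Φ T) x (hvf H x)) 0 := h2.comp_hasDerivAt 0 h1
  have h4 : HasDerivAt (fun s => Φ s (Φ T x)) (hvf H (Φ 0 (Φ T x))) 0 := hΦ.ode (Φ T x) 0
  rw [hΦ.zero] at h4
  have h5 : (fun s => Φ T (Φ s x)) = fun s => Φ s (Φ T x) := by
    funext s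
    rw [← hΦ.add, ← hΦ.add, add_comm]
  rw [h5] at h3
  exact h3.unique h4

private theorem HKQ_int (c s t : ℝ) (hs : 0 < s + c) (hst : s < t) :
    ∫ r in s..t, ((r + c) ^ 2)⁻¹ = (t - s) / ((s + c) * (t + c)) := by
  have ht : 0 < t + c := by linarith
  have hpos : ∀ r ∈ uIcc s t, 0 < r + c := by
    intro r hr
    rw [uIcc_of_le hst.le] at hr
    linarith [hr.1]
  have h1 : ∀ r ∈ uIcc s t, HasDerivAt (fun r : ℝ => -(r + c)⁻¹) (((r + c) ^ 2)⁻¹) r := by
    intro r hr
    have h0 := (hpos r hr).ne'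
    have h2 := ((hasDerivAt_id r).add_const c).inv h0
    have h3 := h2.neg
    have e : -(-1 / (id r + c) ^ 2) = ((r + c) ^ 2)⁻¹ := by
      rw [id]
      ring
    rw [e] at h3
    exact h3
  have h2 : IntervalIntegrable (fun r : ℝ => ((r + c) ^ 2)⁻¹) volume s t := by
    refine ContinuousOn.intervalIntegrable ?_
    refine ContinuousOn.inv₀ (by fun_prop) ?_
    intro r hr
    exact pow_ne_zero 2 (hpos r hr).ne'
  rw [intervalIntegral.integral_eq_sub_of_hasDerivAt h1 h2]
  field_simp
  ring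

theorem HKQ (h1 : RED_stmt) (h2 : HES_stmt) (h3 : NDG_stmt) (h4 : HVA_stmt) (h5 : NRG_stmt)
    (h6 : HSC_stmt) (h7 : HMQ_stmt) : HKQ_stmt := by
  intro n r0 r1 L 𝒢 H Φ hn hGF hEx z a k ha hk hL hz0pos hz1 horb
  have hΦ : IsHFlow H Φ := hGF.toIsHFlow
  have hH : ContDiff ℝ ∞ H := hGF.smoothH
  set z0 : PS n := Φ (-a - k) z with hz0
  set F : ℝ → En n →L[ℝ] En n := fun u => BB Φ (u + a + k) z0 with hF
  set G : ℝ → En n →L[ℝ] En n := fun u => Hpp H (Φ u z) with hG
  have hflow : ∀ r, Φ (r + a + k) z0 = Φ r z := by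
    intro r
    rw [hz0, ← hΦ.add]
    congr 1
    ring
  -- the energy
  have hmem0 : (0 : ℝ) ∈ Icc (-a - k) a := ⟨by linarith, ha.le⟩
  have hen : ∀ u ∈ Icc (-a - k) a, nrm2 𝒢 (Φ u z) = nrm2 𝒢 z := by
    intro u hu
    refine h5 n r0 r1 𝒢 H Φ hGF z u hz1 ?_
    intro s hs
    apply horb
    rcases le_total 0 u with h | h
    · rw [uIcc_of_le h] at hs
      exact ⟨by linarith [hs.1], hs.2.trans hu.2⟩
    · rw [uIcc_of_ge h] at hs
      exact ⟨hu.1.trans hs.1, by linarith [hs.2]⟩
  have hsub0 : ∀ u ∈ Icc (-a) a, u ∈ Icc (-a - k) a := fun u hu => ⟨by linarith [hu.1], hu.2⟩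
  have hHVA : ∀ u ∈ Icc (-a - k) a, (hvf H (Φ u z)).1 = 𝒢.G (Φ u z).1 (Φ u z).2 ∧
      Hpp H (Φ u z) = 𝒢.G (Φ u z).1 := by
    intro u hu
    have h := h4 n r0 r1 𝒢 H Φ hGF (Φ u z) (horb u hu) (by rw [hen u hu]; linarith)
    exact ⟨h.1, h.2.2⟩
  have hGeq : ∀ u ∈ Icc (-a) a, G u = 𝒢.G (Φ u z).1 := fun u hu => (hHVA u (hsub0 u hu)).2
  have hpos : ∀ u ∈ Icc (-a) a, PosDefOp (G u) := by
    intro u hu
    rw [hGeq u hu]
    exact 𝒢.pos _ ((horb u (hsub0 u hu)).trans hGF.r1lt)
  have hz0mem : (-a - k) ∈ Icc (-a - k) a := ⟨le_refl _, by linarith⟩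
  have hz0n : nrm2 𝒢 z0 = nrm2 𝒢 z := hen _ hz0mem
  have horb0 : ∀ (T : ℝ), T ≤ 2 * a + k → ∀ s ∈ Icc 0 T, ‖(Φ s z0).1‖ < r1 := by
    intro T hT s hs
    have e : Φ s z0 = Φ (s - a - k) z := by
      rw [hz0, ← hΦ.add]
      congr 1
      ring
    rw [e]
    exact horb _ ⟨by linarith [hs.1], by linarith [hs.2]⟩
  have hdet : ∀ u ∈ Icc (-a) a, (F u).det ≠ 0 := by
    intro u hu
    refine h3 n r0 r1 L 𝒢 H Φ hGF hEx z0 (u + a + k) (by linarith [hu.1]) (by linarith [hu.2])
      (by rw [hz0n]; exact hz1) ?_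
    exact horb0 _ (by linarith [hu.2])
  have hTpos : ∀ u ∈ Icc (-a) a, 0 < u + a + k := fun u hu => by linarith [hu.1]
  have hFc : Continuous F := by
    have h := hΦ.dcont.comp (Continuous.prodMk
      (Continuous.add (Continuous.add continuous_id continuous_const) continuous_const :
        Continuous fun u : ℝ => u + a + k) (continuous_const : Continuous fun _ : ℝ => z0))
    exact (continuous_const.clm_comp (h.clm_comp continuous_const))
  have hvc : Continuous fun y : PS n => fderiv ℝ (hvf H) y :=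
    (KZP_hvf hH).continuous_fderiv (by norm_num)
  have hΦc : Continuous fun u : ℝ => Φ u z :=
    hΦ.cont.comp (Continuous.prodMk continuous_id continuous_const)
  have hGc : Continuous G := by
    have h := hvc.comp hΦc
    exact (continuous_const.clm_comp (h.clm_comp continuous_const))
  have hGpos : ∀ u ∈ Icc (-a) a, 0 < (G u).det := fun u hu => KZP_det_pos (hpos u hu)
  have hdetF : Continuous fun u => (F u).det := ContinuousLinearMap.continuous_det.comp hFc
  have hdetG : Continuous fun u => (G u).det := ContinuousLinearMap.continuous_det.comp hGc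
  set bs : ℝ → ℝ := fun u => |(F u).det| / ((u + a + k) * Real.sqrt (G u).det) with hbs
  have hbase : ∀ u ∈ Icc (-a) a, 0 < bs u := fun u hu =>
    div_pos (abs_pos.mpr (hdet u hu)) (mul_pos (hTpos u hu) (Real.sqrt_pos.mpr (hGpos u hu)))
  have hn1 : (0 : ℝ) < (n : ℝ) - 1 := by
    have : (2 : ℝ) ≤ n := by exact_mod_cast hn
    linarith
  have hn1c : ((n - 1 : ℕ) : ℝ) = (n : ℝ) - 1 := by
    rw [Nat.cast_sub (by omega)]
    simp
  set ψ : ℝ → ℝ := fun u => bs u ^ ((1 : ℝ) / ((n : ℝ) - 1)) with hψ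
  have hψpos : ∀ u ∈ Icc (-a) a, 0 < ψ u := fun u hu => Real.rpow_pos_of_pos (hbase u hu) _
  have hψn : ∀ u ∈ Icc (-a) a, ψ u ^ (n - 1) = bs u := by
    intro u hu
    show (bs u ^ ((1 : ℝ) / ((n : ℝ) - 1))) ^ (n - 1) = bs u
    rw [← Real.rpow_natCast, ← Real.rpow_mul (hbase u hu).le, hn1c, one_div, inv_mul_cancel₀ hn1.ne',
      Real.rpow_one]
  refine ⟨ψ, ?_, hψpos, ?_⟩
  · refine ContinuousOn.rpow_const ?_ ?_
    · refine ContinuousOn.div (hdetF.abs.continuousOn) ?_ ?_
      · refine ContinuousOn.mul ?_ (Real.continuous_sqrt.comp hdetG).continuousOn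
        fun_prop
      · intro u hu
        exact (mul_pos (hTpos u hu) (Real.sqrt_pos.mpr (hGpos u hu))).ne'
    · intro u hu
      exact Or.inl (hbase u hu).ne'
  · intro s t hs hst ht
    have hsub : ∀ r ∈ Icc s t, r ∈ Icc (-a) a := fun r hr => ⟨by linarith [hr.1], by linarith [hr.2]⟩
    have hs' : s ∈ Icc (-a) a := hsub s ⟨le_refl _, hst.le⟩
    have ht' : t ∈ Icc (-a) a := hsub t ⟨hst.le, le_refl _⟩
    -- the inverse
    set Fi : ℝ → En n →L[ℝ] En n := fun u => Ring.inverse (F u) with hFi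
    have hu : ∀ r ∈ Icc (-a) a, IsUnit (F r) := fun r hr => KZP_isUnit (hdet r hr)
    have hFiF : ∀ r ∈ Icc (-a) a, ∀ ξ, Fi r (F r ξ) = ξ := by
      intro r hr ξ
      have h := Ring.inverse_mul_cancel (F r) (hu r hr)
      exact congrArg (fun L : En n →L[ℝ] En n => L ξ) h
    have hFFi : ∀ r ∈ Icc (-a) a, ∀ ξ, F r (Fi r ξ) = ξ := by
      intro r hr ξ
      have h := Ring.mul_inverse_cancel (F r) (hu r hr)
      exact congrArg (fun L : En n →L[ℝ] En n => L ξ) h
    have hFic : ContinuousOn Fi (Icc (-a) a) := by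
      intro r hr
      obtain ⟨U, hU⟩ := hu r hr
      have h := NormedRing.inverse_continuousAt U
      rw [hU] at h
      exact (ContinuousAt.comp (g := Ring.inverse) (f := F) h hFc.continuousAt).continuousWithinAt
    set Q : ℝ → En n →L[ℝ] En n := fun r =>
      (Fi r).comp ((G r).comp (ContinuousLinearMap.adjoint (Fi r))) with hQ
    have hQc : ContinuousOn Q (Icc (-a) a) := by
      refine hFic.clm_comp (hGc.continuousOn.clm_comp ?_)
      exact ContinuousLinearMap.adjoint.continuous.comp_continuousOn hFic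
    have hQc' : ContinuousOn Q (Icc s t) := hQc.mono hsub
    have hQpos : ∀ r ∈ Icc s t, PosDefOp (Q r) := by
      intro r hr
      have hG1 := hpos r (hsub r hr)
      refine ⟨?_, ?_⟩
      · intro v w
        show inner ℝ (Fi r (G r (ContinuousLinearMap.adjoint (Fi r) v))) w =
          inner ℝ v (Fi r (G r (ContinuousLinearMap.adjoint (Fi r) w)))
        rw [← ContinuousLinearMap.adjoint_inner_right (Fi r),
          ← ContinuousLinearMap.adjoint_inner_left (Fi r)]
        exact hG1.1 _ _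
      · intro v hv
        show 0 < inner ℝ (Fi r (G r (ContinuousLinearMap.adjoint (Fi r) v))) v
        rw [← ContinuousLinearMap.adjoint_inner_right (Fi r)]
        apply hG1.2
        intro h0
        apply hv
        have h4 : ContinuousLinearMap.adjoint (F r) (ContinuousLinearMap.adjoint (Fi r) v) = v := by
          have h5 := Ring.inverse_mul_cancel (F r) (hu r (hsub r hr))
          have h6 : ContinuousLinearMap.adjoint ((Fi r).comp (F r)) =
              ContinuousLinearMap.adjoint (1 : En n →L[ℝ] En n) := congrArg _ h5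
          rw [ContinuousLinearMap.adjoint_comp] at h6
          have h7 := congrArg (fun L : En n →L[ℝ] En n => L v) h6
          have h8 : ContinuousLinearMap.adjoint (1 : En n →L[ℝ] En n) = 1 :=
            ContinuousLinearMap.adjoint_id
          rw [h8] at h7
          exact h7
        rw [← h4, h0, map_zero]
    set S : En n →L[ℝ] En n := ∫ r in s..t, Q r with hS
    -- the new observation
    set p0 : En n := z0.2 with hp0
    set e : En n := (hvf H z0).1 with he
    have hee : e = 𝒢.G z0.1 p0 := (hHVA _ hz0mem).1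
    have he0 : e ≠ 0 := by
      intro h0
      have h : nrm2 𝒢 z0 = 0 := by
        unfold nrm2
        rw [← hp0, ← hee, h0, inner_zero_left]
      rw [hz0n] at h
      linarith
    have hHSC : ∀ r ∈ Icc (-a) a, fderiv ℝ (Φ (r + a + k)) z0 (0, p0) =
        ((0 : En n), (Φ r z).2) + (r + a + k) • hvf H (Φ r z) := by
      intro r hr
      have h := h6 n r0 r1 𝒢 H Φ hGF z0 (r + a + k) (by rw [hz0n]; exact hz1) (by
        intro s hs
        rw [uIcc_of_le (hTpos r hr).le] at hs
        exact horb0 _ (by linarith [hr.2]) s hs)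
      rw [hflow r] at h
      exact h
    have hFp0 : ∀ r ∈ Icc (-a) a, F r p0 = (r + a + k) • G r (Φ r z).2 := by
      intro r hr
      have h := congrArg Prod.fst (hHSC r hr)
      have e1 : F r p0 = (fderiv ℝ (Φ (r + a + k)) z0 (0, p0)).1 := rfl
      rw [e1, h, Prod.fst_add, zero_add, Prod.smul_fst, (hHVA r (hsub0 r hr)).1, hGeq r hr]
    have hFTp : ∀ r ∈ Icc (-a) a, ContinuousLinearMap.adjoint (F r) (Φ r z).2 = (r + a + k) • e := by
      intro r hr
      refine ext_inner_left ℝ fun ξ => ?_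
      rw [ContinuousLinearMap.adjoint_inner_right, inner_smul_right]
      have g1 : symp (fderiv ℝ (Φ (r + a + k)) z0 (0, ξ)) (fderiv ℝ (Φ (r + a + k)) z0 (0, p0)) = 0 := by
        rw [hΦ.symp_eq]
        unfold symp
        simp
      have g2 : symp (fderiv ℝ (Φ (r + a + k)) z0 (0, ξ)) (hvf H (Φ r z)) = - inner ℝ ξ e := by
        rw [← hflow r, ← HKQ_vf hΦ (r + a + k) z0, hΦ.symp_eq]
        unfold symp
        simp [he]
      rw [hHSC r hr] at g1
      have g3 : symp (fderiv ℝ (Φ (r + a + k)) z0 (0, ξ)) (((0 : En n), (Φ r z).2) + (r + a + k) • hvf H (Φ r z)) =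
          inner ℝ (F r ξ) (Φ r z).2 + (r + a + k) * symp (fderiv ℝ (Φ (r + a + k)) z0 (0, ξ)) (hvf H (Φ r z)) := by
        have e1 : F r ξ = (fderiv ℝ (Φ (r + a + k)) z0 (0, ξ)).1 := rfl
        rw [e1]
        unfold symp
        simp only [Prod.fst_add, Prod.snd_add, Prod.smul_fst, Prod.smul_snd, inner_add_right, inner_smul_right,
          zero_add]
        ring
      rw [g3, g2] at g1
      linarith
    have hFiTe : ∀ r ∈ Icc (-a) a, ContinuousLinearMap.adjoint (Fi r) e = (r + a + k)⁻¹ • (Φ r z).2 := by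
      intro r hr
      have g4 : ContinuousLinearMap.adjoint (Fi r) (ContinuousLinearMap.adjoint (F r) (Φ r z).2) = (Φ r z).2 := by
        have h5 := Ring.mul_inverse_cancel (F r) (hu r hr)
        have h6 : ContinuousLinearMap.adjoint ((F r).comp (Fi r)) =
            ContinuousLinearMap.adjoint (1 : En n →L[ℝ] En n) := congrArg _ h5
        rw [ContinuousLinearMap.adjoint_comp] at h6
        have h7 := congrArg (fun L : En n →L[ℝ] En n => L (Φ r z).2) h6
        have h8 : ContinuousLinearMap.adjoint (1 : En n →L[ℝ] En n) = 1 :=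
          ContinuousLinearMap.adjoint_id
        rw [h8] at h7
        exact h7
      rw [hFTp r hr, map_smul] at g4
      rw [← g4, smul_smul, inv_mul_cancel₀ (hTpos r hr).ne', one_smul]
    have hQe : ∀ r ∈ Icc (-a) a, Q r e = ((r + a + k) ^ 2)⁻¹ • p0 := by
      intro r hr
      have e1 : Q r e = Fi r (G r (ContinuousLinearMap.adjoint (Fi r) e)) := rfl
      have hT := (hTpos r hr).ne'
      have e2 : G r (Φ r z).2 = (r + a + k)⁻¹ • F r p0 := by
        rw [hFp0 r hr, smul_smul, inv_mul_cancel₀ hT, one_smul]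
      rw [e1, hFiTe r hr, map_smul, e2, map_smul, map_smul, hFiF r hr, smul_smul]
      congr 1
      rw [pow_two, mul_inv]
    have hqc : ContinuousOn (fun r : ℝ => ((r + a + k) ^ 2)⁻¹) (Icc s t) := by
      refine ContinuousOn.inv₀ (by fun_prop) ?_
      intro r hr
      exact pow_ne_zero 2 (hTpos r (hsub r hr)).ne'
    have hMNK := h7 n hn s t Q (fun r => ((r + a + k) ^ 2)⁻¹) e p0 hst hQc' hqc he0 (fun r hr =>
      ⟨hQpos r hr, inv_pos.2 (pow_pos (hTpos r (hsub r hr)) 2), hQe r (hsub r hr)⟩)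
    have hkey : BB Φ (t - s) (Φ s z) =
        (F t).comp (S.comp (ContinuousLinearMap.adjoint (F s))) := by
      set A : ℝ → PS n →L[ℝ] PS n := fun r => fderiv ℝ (hvf H) (Φ (r + a + k) z0) with hA
      set Y : ℝ → PS n →L[ℝ] PS n := fun r => fderiv ℝ (Φ (r + a + k)) z0 with hY
      have hA' : ∀ r, A r = fderiv ℝ (hvf H) (Φ r z) := fun r => by
        show fderiv ℝ (hvf H) (Φ (r + a + k) z0) = _
        rw [hflow r]
      have hAc : Continuous A := by
        have h : A = fun r => fderiv ℝ (hvf H) (Φ r z) := funext hA'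
        rw [h]
        exact hvc.comp hΦc
      have hAs : ∀ r v w, symp (A r v) w + symp v (A r w) = 0 := fun r v w =>
        h2 n H hH _ v w
      have hYd : ∀ r, HasDerivAt Y ((A r).comp (Y r)) r := by
        intro r
        have h := hΦ.var z0 (r + (a + k))
        have h' := HasDerivAt.comp_add_const r (a + k) h
        have e1 : Y = fun x => fderiv ℝ (Φ (x + (a + k))) z0 := by
          funext x
          show fderiv ℝ (Φ (x + a + k)) z0 = _
          rw [add_assoc]
        have e2 : (A r).comp (Y r) = (fderiv ℝ (hvf H) (Φ (r + (a + k)) z0)).comp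
            (fderiv ℝ (Φ (r + (a + k))) z0) := by
          show (fderiv ℝ (hvf H) (Φ (r + a + k) z0)).comp (fderiv ℝ (Φ (r + a + k)) z0) = _
          rw [add_assoc]
        rw [e2, e1]
        exact h'
      have hYs : ∀ r v w, symp (Y r v) (Y r w) = symp v w := fun r v w => hΦ.symp_eq _ _ v w
      have hFi' : ∀ r ∈ Icc s t, ∀ ξ, Fi r (Y r (0, ξ)).1 = ξ ∧ (Y r (0, Fi r ξ)).1 = ξ :=
        fun r hr ξ => ⟨hFiF r (hsub r hr) ξ, hFFi r (hsub r hr) ξ⟩
      ext1 η
      set v : PS n := fderiv ℝ (Φ (-s - a - k)) (Φ s z) (0, η) with hv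
      have hb : Φ (-s - a - k) (Φ s z) = z0 := by
        rw [← hΦ.add, hz0]
        congr 1
        ring
      have hYv : Y s v = (0, η) := by
        have h := KZP_chain hΦ (s + a + k) (-s - a - k) (Φ s z) (0, η)
        rw [hb] at h
        have e : s + a + k + (-s - a - k) = 0 := by ring
        rw [e, KZP_zero hΦ] at h
        exact h.symm
      have hYt : Y t v = fderiv ℝ (Φ (t - s)) (Φ s z) (0, η) := by
        have h := KZP_chain hΦ (t - s) (s + a + k) z0 v
        have e : t - s + (s + a + k) = t + a + k := by ring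
        rw [e, hflow s] at h
        have h' : Y t v = fderiv ℝ (Φ (t - s)) (Φ s z) (Y s v) := h
        rw [h', hYv]
      have hRED := h1 n A Y s t Fi hAc hAs hYd hYs hst.le hFi' v η hYv
      have hint : (∫ r in s..t, Fi r (A r (0, ContinuousLinearMap.adjoint (Fi r)
        (ContinuousLinearMap.adjoint ((ContinuousLinearMap.fst ℝ (En n) (En n)).comp
          ((Y s).comp (ContinuousLinearMap.inr ℝ (En n) (En n)))) η))).1) =
          S (ContinuousLinearMap.adjoint (F s) η) := by
        rw [hS, ContinuousLinearMap.intervalIntegral_apply]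
        · refine intervalIntegral.integral_congr fun r _ => ?_
          show Fi r (A r (0, ContinuousLinearMap.adjoint (Fi r)
            (ContinuousLinearMap.adjoint (F s) η))).1 =
            Fi r (G r (ContinuousLinearMap.adjoint (Fi r) (ContinuousLinearMap.adjoint (F s) η)))
          rw [hA' r]
          rfl
        · refine ContinuousOn.intervalIntegrable ?_
          rw [uIcc_of_le hst.le]
          exact hQc'
      rw [hint] at hRED
      show (fderiv ℝ (Φ (t - s)) (Φ s z) (0, η)).1 = F t (S (ContinuousLinearMap.adjoint (F s) η))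
      rw [← hYt, hRED]
      rfl
    have hdetBB : (BB Φ (t - s) (Φ s z)).det = (F t).det * (S.det * (F s).det) := by
      rw [hkey, KZP_det_mul, KZP_det_mul, KZP_det_adjoint]
    have hdetQ : ∀ r ∈ Icc s t, ((Q r).det / ((r + a + k) ^ 2)⁻¹) ^ ((1 : ℝ) / ((n : ℝ) - 1)) = (ψ r ^ 2)⁻¹ := by
      intro r hr
      have hr' := hsub r hr
      have e1 : (Q r).det = (Fi r).det * ((G r).det * (Fi r).det) := by
        show ((Fi r).comp ((G r).comp (ContinuousLinearMap.adjoint (Fi r)))).det = _
        rw [KZP_det_mul, KZP_det_mul, KZP_det_adjoint]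
      have e2 : (Fi r).det * (F r).det = 1 := by
        rw [← KZP_det_mul]
        have h5 := Ring.inverse_mul_cancel (F r) (hu r hr')
        have h6 : (Fi r).comp (F r) = 1 := h5
        rw [h6, KZP_det_one]
      have hF0 : (F r).det ≠ 0 := hdet r hr'
      have hG0 := hGpos r hr'
      have hT0 := hTpos r hr'
      have e3 : (Q r).det / ((r + a + k) ^ 2)⁻¹ = ((bs r) ^ 2)⁻¹ := by
        show _ = ((|(F r).det| / ((r + a + k) * Real.sqrt (G r).det)) ^ 2)⁻¹
        rw [e1, div_pow, sq_abs, mul_pow, Real.sq_sqrt hG0.le, inv_div]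
        have e4 : (Fi r).det = ((F r).det)⁻¹ := eq_inv_of_mul_eq_one_left e2
        rw [e4]
        field_simp
      have hb := hbase r hr'
      rw [e3, Real.inv_rpow (by positivity), ← Real.rpow_natCast, ← Real.rpow_mul hb.le]
      show _ = ((bs r ^ ((1 : ℝ) / ((n : ℝ) - 1))) ^ 2)⁻¹
      rw [← Real.rpow_natCast, ← Real.rpow_mul hb.le, mul_comm]
    have hI : (∫ r in s..t, (ψ r ^ 2)⁻¹) =
        ∫ r in s..t, ((Q r).det / ((r + a + k) ^ 2)⁻¹) ^ ((1 : ℝ) / ((n : ℝ) - 1)) := by
      refine intervalIntegral.integral_congr fun r hr => ?_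
      rw [uIcc_of_le hst.le] at hr
      exact (hdetQ r hr).symm
    have hTs := hTpos s hs'
    have hTt := hTpos t ht'
    have hq : ∫ r in s..t, ((r + a + k) ^ 2)⁻¹ = (t - s) / ((s + a + k) * (t + a + k)) := by
      have h := HKQ_int (a + k) s t (by linarith) hst
      simp only [← add_assoc] at h
      exact h
    have hle : (∫ r in s..t, (ψ r ^ 2)⁻¹) ^ (n - 1) ≤ |S.det| / ((t - s) / ((s + a + k) * (t + a + k))) := by
      rw [hI]
      have hMNK' : (∫ r in s..t, ((Q r).det / ((r + a + k) ^ 2)⁻¹) ^ ((1 : ℝ) / ((n : ℝ) - 1))) ^ (n - 1) ≤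
          S.det / ∫ r in s..t, ((r + a + k) ^ 2)⁻¹ := hMNK
      rw [hq] at hMNK'
      refine hMNK'.trans ?_
      refine div_le_div_of_nonneg_right (le_abs_self _) ?_
      have : 0 < t - s := by linarith
      positivity
    have hψs := hψpos s hs'
    have hψt := hψpos t ht'
    have hGs := hGpos s hs'
    have hGt := hGpos t ht'
    have hts : 0 < t - s := by linarith
    have hR : EE 𝒢 Φ (Φ s z) (t - s) / (t - s) =
        bs s * bs t * (|S.det| / ((t - s) / ((s + a + k) * (t + a + k)))) := by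
      unfold EE
      have e0 : Φ (t - s) (Φ s z) = Φ t z := by
        rw [← hΦ.add]
        congr 1
        ring
      rw [e0, ← hGeq s hs', ← hGeq t ht', hdetBB, abs_mul, abs_mul, Real.sqrt_mul hGs.le]
      show _ = |(F s).det| / ((s + a + k) * Real.sqrt (G s).det) *
        (|(F t).det| / ((t + a + k) * Real.sqrt (G t).det)) * _
      have h5 := (Real.sqrt_pos.mpr hGs).ne'
      have h6 := (Real.sqrt_pos.mpr hGt).ne'
      field_simp
    rw [hR, mul_pow, mul_pow, hψn s hs', hψn t ht']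
    exact mul_le_mul_of_nonneg_left hle (mul_pos (hbase s hs') (hbase t ht')).le

end Pool.Agent.CRO
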